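import Mathlib
import Pool.Agent.TH854.P5Cert

/-!
# No 3-colourable `P_5`-free graph has a frozen 4-colouring
-/

set_option autoImplicit false

namespace Pool.Agent.TH854.P5

variable {V : Type*}

/-- forbidding an induced path on five vertices, in elementary terms -/
theorem p5_elim (G : SimpleGraph V) (hP : IsEmpty (SimpleGraph.pathGraph 5 ↪g G))
    {a b c d e : V} (hab : G.Adj a b) (hbc : G.Adj b c) (hcd : G.Adj c d) (hde : G.Adj d e)
    (hac : ¬ G.Adj a c) (had : ¬ G.Adj a d) (hae : ¬ G.Adj a e) (hbd : ¬ G.Adj b d)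
    (hbe : ¬ G.Adj b e) (hce : ¬ G.Adj c e) : False := by
  have ab := hab.ne
  have bc := hbc.ne
  have cd := hcd.ne
  have de := hde.ne
  have ac : a ≠ c := fun h => had (h ▸ hcd)
  have ad : a ≠ d := fun h => hac (h ▸ hcd.symm)
  have ae : a ≠ e := fun h => had (h ▸ hde.symm)
  have bd : b ≠ d := fun h => had (h ▸ hab)
  have be : b ≠ e := fun h => hae (h ▸ hab)
  have ce : c ≠ e := fun h => hbe (h ▸ hbc)
  have hca : ¬ G.Adj c a := fun h => hac h.symm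
  have hda : ¬ G.Adj d a := fun h => had h.symm
  have hea : ¬ G.Adj e a := fun h => hae h.symm
  have hdb : ¬ G.Adj d b := fun h => hbd h.symm
  have heb : ¬ G.Adj e b := fun h => hbe h.symm
  have hec : ¬ G.Adj e c := fun h => hce h.symm
  have hba := hab.symm
  have hcb := hbc.symm
  have hdc := hcd.symm
  have hed := hde.symm
  refine hP.false ⟨⟨![a, b, c, d, e], ?_⟩, ?_⟩
  · intro i j h
    fin_cases i <;> fin_cases j <;>
      first
        | rfl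
        | (exfalso; revert h; simp [ab, bc, cd, de, ac, ad, ae, bd, be, ce, ab.symm, bc.symm,
            cd.symm, de.symm, ac.symm, ad.symm, ae.symm, bd.symm, be.symm, ce.symm])
  · intro i j
    rw [SimpleGraph.pathGraph_adj]
    fin_cases i <;> fin_cases j <;>
      simp [hab, hbc, hcd, hde, hac, had, hae, hbd, hbe, hce, hca, hda, hea, hdb, heb, hec, hba,
        hcb, hdc, hed]

/-- a `P_5`-free graph with a frozen 4-colouring contains a triangle -/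
theorem exists_triangle (v : V) (G : SimpleGraph V)
    (hP : IsEmpty (SimpleGraph.pathGraph 5 ↪g G)) (c : G.Coloring (Fin 4))
    (hc : ∀ v : V, ∀ i : Fin 4, i ≠ c v → ∃ w : V, G.Adj v w ∧ c w = i) :
    ∃ x y z : V, G.Adj x y ∧ G.Adj x z ∧ G.Adj y z := by
  by_contra htri
  have tri : ∀ x y z : V, G.Adj x y → G.Adj x z → ¬ G.Adj y z :=
    fun x y z h1 h2 h3 => htri ⟨x, y, z, h1, h2, h3⟩
  have same : ∀ x y : V, c x = c y → ¬ G.Adj x y := fun x y h h2 => c.valid h2 h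
  obtain ⟨k1, k2, k3, h1, h2, h3, h12, h13, h23⟩ : ∃ k1 k2 k3 : Fin 4, k1 ≠ c v ∧ k2 ≠ c v ∧
      k3 ≠ c v ∧ k1 ≠ k2 ∧ k1 ≠ k3 ∧ k2 ≠ k3 := by
    have : ∀ k : Fin 4, ∃ k1 k2 k3 : Fin 4, k1 ≠ k ∧ k2 ≠ k ∧ k3 ≠ k ∧ k1 ≠ k2 ∧ k1 ≠ k3 ∧
      k2 ≠ k3 := by decide
    exact this _
  obtain ⟨w1, a1, e1⟩ := hc v k1 h1
  obtain ⟨w2, a2, e2⟩ := hc v k2 h2
  obtain ⟨w3, a3, e3⟩ := hc v k3 h3
  obtain ⟨p, ap, ep⟩ := hc w1 k2 (by rw [e1]; exact h12.symm)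
  obtain ⟨q, aq, eq⟩ := hc w1 k3 (by rw [e1]; exact h13.symm)
  obtain ⟨r, ar, er⟩ := hc w2 k1 (by rw [e2]; exact h12)
  obtain ⟨s, as, es⟩ := hc w2 k3 (by rw [e2]; exact h23.symm)
  have w12 : ¬ G.Adj w1 w2 := tri v w1 w2 a1 a2
  have w13 : ¬ G.Adj w1 w3 := tri v w1 w3 a1 a3
  have w23 : ¬ G.Adj w2 w3 := tri v w2 w3 a2 a3
  have pv : ¬ G.Adj p v := tri w1 p v ap a1.symm
  have vp : ¬ G.Adj v p := fun h => pv h.symm
  have vr : ¬ G.Adj v r := tri w2 v r a2.symm ar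
  have qv : ¬ G.Adj q v := tri w1 q v aq a1.symm
  have vs : ¬ G.Adj v s := tri w2 v s a2.symm as
  have pw2 : ¬ G.Adj p w2 := same _ _ (by rw [ep, e2])
  have w1r : ¬ G.Adj w1 r := same _ _ (by rw [e1, er])
  have qs : ¬ G.Adj q s := same _ _ (by rw [eq, es])
  -- step 1
  have pr : G.Adj p r := by
    by_contra hn
    exact p5_elim G hP ap.symm a1.symm a2 ar pv pw2 hn w12 w1r vr
  -- step 2
  obtain ⟨t, t1, t2, et⟩ : ∃ t, G.Adj t w1 ∧ G.Adj t w2 ∧ c t = k3 := by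
    by_cases hq : G.Adj q w2
    · exact ⟨q, aq.symm, hq, eq⟩
    by_cases hs : G.Adj w1 s
    · exact ⟨s, hs.symm, as.symm, es⟩
    exact (p5_elim G hP aq.symm a1.symm a2 as qv hq qs w12 hs vs).elim
  have tr : ¬ G.Adj t r := tri w2 t r t2.symm ar
  have tp : ¬ G.Adj t p := tri w1 t p t1.symm ap
  have tw3 : ¬ G.Adj t w3 := same _ _ (by rw [et, e3])
  by_cases h3p : G.Adj p w3
  · have h3r : ¬ G.Adj r w3 := tri p r w3 pr h3p
    exact p5_elim G hP t2 ar pr.symm h3p tr tp tw3 (fun h => pw2 h.symm) w23 h3r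
  by_cases h3r : G.Adj r w3
  · exact p5_elim G hP t1 ap pr h3r tp tr tw3 w1r w13 h3p
  exact p5_elim G hP a3.symm a1 ap pr (fun h => w13 h.symm) (fun h => h3p h.symm)
    (fun h => h3r h.symm) vp vr w1r

theorem no_frozen (v₀ : V) (G : SimpleGraph V) (h3 : G.Colorable 3)
    (hP : IsEmpty (SimpleGraph.pathGraph 5 ↪g G)) (c : G.Coloring (Fin 4))
    (hc : ∀ v : V, ∀ i : Fin 4, i ≠ c v → ∃ w : V, G.Adj v w ∧ c w = i) : False := by
  classical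
  obtain ⟨α⟩ := h3
  obtain ⟨x0, x1, x2, h01, h02, h12⟩ := exists_triangle v₀ G hP c hc
  have same : ∀ x y : V, c x = c y → ¬ G.Adj x y := fun x y h h2 => c.valid h2 h
  choose! W hW using hc
  have hWa : ∀ v i, i ≠ c v → G.Adj v (W v i) := fun v i h => (hW v i h).1
  have hWc : ∀ v i, i ≠ c v → c (W v i) = i := fun v i h => (hW v i h).2
  obtain ⟨k3, e30, e31, e32⟩ : ∃ k : Fin 4, k ≠ c x0 ∧ k ≠ c x1 ∧ k ≠ c x2 := by
    have : ∀ a b d : Fin 4, ∃ k : Fin 4, k ≠ a ∧ k ≠ b ∧ k ≠ d := by decide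
    exact this _ _ _
  have c01 : c x0 ≠ c x1 := c.valid h01
  have c02 : c x0 ≠ c x2 := c.valid h02
  have c12 : c x1 ≠ c x2 := c.valid h12
  obtain ⟨k0, hk0⟩ : ∃ k, k = c x0 := ⟨_, rfl⟩
  obtain ⟨k1, hk1⟩ : ∃ k, k = c x1 := ⟨_, rfl⟩
  obtain ⟨k2, hk2⟩ : ∃ k, k = c x2 := ⟨_, rfl⟩
  rw [← hk0] at e30 c01 c02
  rw [← hk1] at e31 c01 c12
  rw [← hk2] at e32 c02 c12
  -- the other vertices
  obtain ⟨x3, hx3⟩ : ∃ x, x = W x0 k3 := ⟨_, rfl⟩
  obtain ⟨x4, hx4⟩ : ∃ x, x = W x1 k3 := ⟨_, rfl⟩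
  obtain ⟨x5, hx5⟩ : ∃ x, x = W x2 k3 := ⟨_, rfl⟩
  have c3 : c x3 = k3 := by rw [hx3]; exact hWc _ _ (by rw [← hk0]; exact e30)
  have c4 : c x4 = k3 := by rw [hx4]; exact hWc _ _ (by rw [← hk1]; exact e31)
  have c5 : c x5 = k3 := by rw [hx5]; exact hWc _ _ (by rw [← hk2]; exact e32)
  have a3 : G.Adj x0 x3 := by rw [hx3]; exact hWa _ _ (by rw [← hk0]; exact e30)
  have a4 : G.Adj x1 x4 := by rw [hx4]; exact hWa _ _ (by rw [← hk1]; exact e31)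
  have a5 : G.Adj x2 x5 := by rw [hx5]; exact hWa _ _ (by rw [← hk2]; exact e32)
  obtain ⟨x6, a6, c6⟩ : ∃ x, G.Adj x3 x ∧ c x = k1 :=
    ⟨W x3 k1, hWa _ _ (by rw [c3]; exact e31.symm), hWc _ _ (by rw [c3]; exact e31.symm)⟩
  obtain ⟨x7, a7, c7⟩ : ∃ x, G.Adj x3 x ∧ c x = k2 :=
    ⟨W x3 k2, hWa _ _ (by rw [c3]; exact e32.symm), hWc _ _ (by rw [c3]; exact e32.symm)⟩
  obtain ⟨x8, a8, c8⟩ : ∃ x, G.Adj x4 x ∧ c x = k0 :=
    ⟨W x4 k0, hWa _ _ (by rw [c4]; exact e30.symm), hWc _ _ (by rw [c4]; exact e30.symm)⟩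
  obtain ⟨x9, a9, c9⟩ : ∃ x, G.Adj x4 x ∧ c x = k2 :=
    ⟨W x4 k2, hWa _ _ (by rw [c4]; exact e32.symm), hWc _ _ (by rw [c4]; exact e32.symm)⟩
  obtain ⟨x10, a10, c10⟩ : ∃ x, G.Adj x5 x ∧ c x = k0 :=
    ⟨W x5 k0, hWa _ _ (by rw [c5]; exact e30.symm), hWc _ _ (by rw [c5]; exact e30.symm)⟩
  obtain ⟨x11, a11, c11⟩ : ∃ x, G.Adj x5 x ∧ c x = k1 :=
    ⟨W x5 k1, hWa _ _ (by rw [c5]; exact e31.symm), hWc _ _ (by rw [c5]; exact e31.symm)⟩
  obtain ⟨x12, a12, c12'⟩ : ∃ x, G.Adj x6 x ∧ c x = k2 :=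
    ⟨W x6 k2, hWa _ _ (by rw [c6]; exact c12.symm), hWc _ _ (by rw [c6]; exact c12.symm)⟩
  obtain ⟨x13, a13, c13⟩ : ∃ x, G.Adj x7 x ∧ c x = k1 :=
    ⟨W x7 k1, hWa _ _ (by rw [c7]; exact c12), hWc _ _ (by rw [c7]; exact c12)⟩
  obtain ⟨x14, a14, c14⟩ : ∃ x, G.Adj x8 x ∧ c x = k2 :=
    ⟨W x8 k2, hWa _ _ (by rw [c8]; exact c02.symm), hWc _ _ (by rw [c8]; exact c02.symm)⟩
  obtain ⟨x15, a15, c15⟩ : ∃ x, G.Adj x9 x ∧ c x = k0 :=
    ⟨W x9 k0, hWa _ _ (by rw [c9]; exact c02), hWc _ _ (by rw [c9]; exact c02)⟩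
  obtain ⟨x16, a16, c16⟩ : ∃ x, G.Adj x10 x ∧ c x = k1 :=
    ⟨W x10 k1, hWa _ _ (by rw [c10]; exact c01.symm), hWc _ _ (by rw [c10]; exact c01.symm)⟩
  obtain ⟨x17, a17, c17⟩ : ∃ x, G.Adj x11 x ∧ c x = k0 :=
    ⟨W x11 k0, hWa _ _ (by rw [c11]; exact c01), hWc _ _ (by rw [c11]; exact c01)⟩
  clear hx3 hx4 hx5 hWa hWc hW
  -- the sequence of vertices
  let X : List V := [x0, x1, x2, x3, x4, x5, x6, x7, x8, x9, x10, x11, x12, x13, x14, x15, x16,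
    x17]
  let x : ℕ → V := fun i => X.getD i x0
  let κ : ℕ → Fin 4 := fun i => [k0, k1, k2, k3].getD i k0
  have hκ : ∀ i, c (x i) = κ (B18.getD i 0) := by
    intro i
    rcases lt_or_ge i 18 with hi | hi
    · interval_cases i <;> first | exact hk0.symm | exact hk1.symm | exact hk2.symm | assumption
    · have e1 : x i = x0 := List.getD_eq_default _ _ (by simpa [X] using hi)
      have e2 : B18.getD i 0 = 0 := List.getD_eq_default _ _ (by simpa [B18] using hi)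
      rw [e1, e2]
      exact hk0.symm
  have α01 : α x0 ≠ α x1 := α.valid h01
  have α02 : α x0 ≠ α x2 := α.valid h02
  have α12 : α x1 ≠ α x2 := α.valid h12
  refine no_model18
    { A := fun i j => G.Adj (x i) (x j)
      c := fun u k => α (x u) = α (x k)
      symm := fun i j h => SimpleGraph.Adj.symm h
      same := ?_
      p5 := ?_
      col := ?_
      sep := ?_
      top := fun i _ => rfl
      edge := ?_
      tri := fun h => by simp at h }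
  · intro i j hij
    exact same _ _ (by rw [hκ, hκ, hij])
  · intro a b c d e h1 h2 h3 h4 h5 h6 h7 h8 h9 h10
    exact p5_elim G hP h1 h2 h3 h4 h5 h6 h7 h8 h9 h10
  · intro u
    have key : ∀ a b d e : Fin 3, a ≠ b → a ≠ d → b ≠ d → e = a ∨ e = b ∨ e = d := by decide
    exact key _ _ _ _ α01 α02 α12
  · intro u v k h1 h2 h3
    exact α.valid h1 (h2.trans h3.symm)
  · intro p hp
    simp only [F18, List.mem_cons, List.not_mem_nil, or_false] at hp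
    rcases hp with rfl | rfl | rfl | rfl | rfl | rfl | rfl | rfl | rfl | rfl | rfl | rfl | rfl |
      rfl | rfl | rfl | rfl | rfl <;> assumption

end Pool.Agent.TH854.P5
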