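import Mathlib

/-!
# Optimal edge-colourings of `K_n` without a rainbow cycle of length `n - 2`

For `n = 2 ^ k` with `k ≥ 3`, identify the vertices with the vectors of `(ZMod 2) ^ k` and colour the
edge `xy` by `x + y`.  The colours along a cycle add up to `0`, and so do all the `n - 1` nonzero
vectors; hence `n - 2` different colours never add up to `0`.
-/

set_option autoImplicit false

namespace Pool.Agent.TH854.NoLongRainbow

/-- `c` is a proper edge-colouring of the complete graph on `Fin n`: two different edges with a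
common end `x` get different colours. -/
def IsProper {n m : ℕ} (c : Sym2 (Fin n) → Fin m) : Prop :=
  ∀ x y z : Fin n, x ≠ y → x ≠ z → y ≠ z → c s(x, y) ≠ c s(x, z)

/-- `c` is an optimal edge-colouring of the complete graph on `Fin n` with `m` colours: it is proper
and no proper edge-colouring has fewer colours. -/
def IsOptimal {n m : ℕ} (c : Sym2 (Fin n) → Fin m) : Prop :=
  IsProper c ∧ ∀ (m' : ℕ) (c' : Sym2 (Fin n) → Fin m'), IsProper c' → m ≤ m'

/-- the sum of all vectors of `(ZMod 2) ^ k` vanishes for `k ≥ 2` -/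
theorem sum_all {k : ℕ} (hk : 2 ≤ k) : ∑ w : Fin k → ZMod 2, w = 0 := by
  funext i
  rw [Finset.sum_apply]
  obtain ⟨j, hj⟩ : ∃ j : Fin k, j ≠ i := by
    have : Nontrivial (Fin k) := Fin.nontrivial_iff_two_le.2 hk
    exact exists_ne i
  refine Finset.sum_involution (fun w _ => w + Pi.single j 1) ?_ ?_ ?_ ?_
  · intro w _
    rw [Pi.add_apply, Pi.single_eq_of_ne hj.symm, add_zero]
    exact CharTwo.add_self_eq_zero _
  · intro w _ _ h
    have h2 := congrFun h j
    rw [Pi.add_apply, Pi.single_eq_same] at h2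
    exact one_ne_zero (add_eq_left.1 h2)
  · intro w _
    exact Finset.mem_univ _
  · intro w _
    rw [add_assoc, ← Pi.single_add, CharTwo.add_self_eq_zero, Pi.single_zero, add_zero]

/-- along a walk the sums of the two ends of the edges telescope -/
theorem sum_walk {n k : ℕ} (e : Fin n → Fin k → ZMod 2) (g : Sym2 (Fin n) → Fin k → ZMod 2)
    (hg : ∀ x y, x ≠ y → g s(x, y) = e x + e y) {u v : Fin n}
    (p : (⊤ : SimpleGraph (Fin n)).Walk u v) : (p.edges.map g).sum = e u + e v := by
  have two : ∀ w : Fin k → ZMod 2, w + w = 0 := fun w => by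
    funext i; exact CharTwo.add_self_eq_zero _
  induction p with
  | nil => simp [two]
  | cons h p ih =>
    rename_i a b c
    rw [SimpleGraph.Walk.edges_cons, List.map_cons, List.sum_cons, ih,
      hg _ _ h.ne]
    calc e a + e b + (e b + e c) = e a + (e b + e b) + e c := by abel
      _ = e a + e c := by rw [two, add_zero]

/-- **Result.** For every `k ≥ 3` and `n = 2 ^ k` there is an optimal edge-colouring of `K_n` (with
`n - 1` colours) in which every cycle of length `n - 2` repeats a colour. -/
theorem result : ∀ k : ℕ, 3 ≤ k → ∃ c : Sym2 (Fin (2 ^ k)) → Fin (2 ^ k - 1),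
    IsOptimal c ∧
    ∀ (v : Fin (2 ^ k)) (p : (⊤ : SimpleGraph (Fin (2 ^ k))).Walk v v), p.IsCycle →
      p.length = 2 ^ k - 2 → ¬ (p.edges.map c).Nodup := by
  intro k hk
  have hpow : 8 ≤ 2 ^ k := by
    calc 8 = 2 ^ 3 := by norm_num
      _ ≤ 2 ^ k := Nat.pow_le_pow_right (by norm_num) hk
  have cardW : Fintype.card (Fin k → ZMod 2) = 2 ^ k := by
    rw [Fintype.card_fun, ZMod.card, Fintype.card_fin]
  let e : Fin (2 ^ k) ≃ (Fin k → ZMod 2) := Fintype.equivOfCardEq (by rw [cardW, Fintype.card_fin])
  have cardN : Fintype.card {w : Fin k → ZMod 2 // w ≠ 0} = 2 ^ k - 1 := by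
    rw [Fintype.card_subtype_compl, cardW]
    simp
  let f : {w : Fin k → ZMod 2 // w ≠ 0} ≃ Fin (2 ^ k - 1) :=
    Fintype.equivOfCardEq (by rw [cardN, Fintype.card_fin])
  have two : ∀ w : Fin k → ZMod 2, w + w = 0 := fun w => by
    funext i; exact CharTwo.add_self_eq_zero _
  have add_ne : ∀ x y : Fin (2 ^ k), x ≠ y → e x + e y ≠ 0 := by
    intro x y hxy h
    apply hxy
    apply e.injective
    calc e x = e x + (e y + e y) := by rw [two, add_zero]
      _ = (e x + e y) + e y := by abel
      _ = e y := by rw [h, zero_add]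
  let z : Fin (2 ^ k - 1) := ⟨0, by omega⟩
  let cf : Fin (2 ^ k) → Fin (2 ^ k) → Fin (2 ^ k - 1) := fun x y =>
    if h : e x + e y ≠ 0 then f ⟨_, h⟩ else z
  have cf_symm : ∀ x y, cf x y = cf y x := by
    intro x y
    simp only [cf, add_comm (e x) (e y)]
  let c : Sym2 (Fin (2 ^ k)) → Fin (2 ^ k - 1) := Sym2.lift ⟨cf, cf_symm⟩
  have hc : ∀ x y, c s(x, y) = cf x y := fun x y => Sym2.lift_mk _ _ _
  let g : Fin (2 ^ k - 1) → (Fin k → ZMod 2) := fun i => (f.symm i).1
  have g_inj : Function.Injective g := fun i j h => f.symm.injective (Subtype.ext h)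
  have g_ne : ∀ i, g i ≠ 0 := fun i => (f.symm i).2
  have hgc : ∀ x y, x ≠ y → g (c s(x, y)) = e x + e y := by
    intro x y hxy
    rw [hc]
    simp only [cf, g, dif_pos (add_ne x y hxy), Equiv.symm_apply_apply]
  have proper : IsProper c := by
    intro x y w hxy hxw hyw h
    have h2 := congrArg g h
    rw [hgc _ _ hxy, hgc _ _ hxw] at h2
    exact hyw (e.injective (add_left_cancel h2))
  refine ⟨c, ⟨proper, ?_⟩, ?_⟩
  · -- no proper colouring has fewer colours
    intro m' c' hc'
    let x0 : Fin (2 ^ k) := ⟨0, by omega⟩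
    have hinj : Function.Injective (fun y : {y : Fin (2 ^ k) // y ≠ x0} => c' s(x0, y.1)) := by
      intro y w h
      by_contra hne
      exact hc' x0 y.1 w.1 y.2.symm w.2.symm (fun h' => hne (Subtype.ext h')) h
    have := Fintype.card_le_of_injective _ hinj
    rw [Fintype.card_fin, Fintype.card_subtype_compl, Fintype.card_fin] at this
    simpa using this
  · intro v p hp hlen hnd
    -- the colours add up to zero along the cycle
    have hsum : ((p.edges.map c).map g).sum = 0 := by
      rw [List.map_map, sum_walk e (g ∘ c) (fun x y hxy => hgc x y hxy) p, two]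
    -- the colours that occur
    let S : Finset (Fin (2 ^ k - 1)) := (p.edges.map c).toFinset
    have hS : S.card = 2 ^ k - 2 := by
      rw [List.toFinset_card_of_nodup hnd, List.length_map, SimpleGraph.Walk.length_edges, hlen]
    have hsumS : ∑ i ∈ S, g i = 0 := by
      rw [List.sum_toFinset _ hnd]
      exact hsum
    have hcompl : (Sᶜ).card = 1 := by
      rw [Finset.card_compl, Fintype.card_fin, hS]
      omega
    obtain ⟨i0, hi0⟩ := Finset.card_eq_one.1 hcompl
    have hall : ∑ i : Fin (2 ^ k - 1), g i = 0 := by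
      have h1 : ∑ i : Fin (2 ^ k - 1), g i = ∑ w : {w : Fin k → ZMod 2 // w ≠ 0}, w.1 :=
        (Equiv.sum_comp f.symm (fun w : {w : Fin k → ZMod 2 // w ≠ 0} => w.1))
      have h2 := sum_all (k := k) (by omega)
      rw [← Finset.sum_filter_add_sum_filter_not Finset.univ (fun w : Fin k → ZMod 2 => w ≠ 0)]
        at h2
      have h3 : ∑ w ∈ Finset.univ.filter (fun w : Fin k → ZMod 2 => ¬ (w ≠ 0)), w = 0 := by
        apply Finset.sum_eq_zero
        intro w hw
        simpa using hw
      rw [h3, add_zero] at h2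
      refine h1.trans (Eq.trans ?_ h2)
      exact (Finset.sum_subtype _ (by intro x; simp) (fun w => w)).symm
    have hsplit := Finset.sum_add_sum_compl S g
    rw [hsumS, hi0, Finset.sum_singleton, zero_add, hall] at hsplit
    exact g_ne i0 hsplit

end Pool.Agent.TH854.NoLongRainbow
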