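import Mathlib
import Pool.Agent.H171R2.RupCore

/-!
# Frozen 4-colourings of 3-colourable `P_5`-free graphs: semantics of the certificate
-/

set_option autoImplicit false

namespace Pool.Agent.TH854.P5

open Pool.Agent.H171R2.Rup

/-- The situation refuted by the certificate: a sequence of vertices with prescribed second
colours `B`, prescribed adjacencies `F`, a first colouring with three colours, and no induced
path on five vertices.  `tf` says whether triangles are forbidden. -/
structure Model (B : List ℕ) (F : List (ℕ × ℕ)) (tf : Bool) where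
  A : ℕ → ℕ → Prop
  c : ℕ → ℕ → Prop
  symm : ∀ i j, A i j → A j i
  same : ∀ i j, B.getD i 0 = B.getD j 0 → ¬ A i j
  p5 : ∀ a b c d e, A a b → A b c → A c d → A d e → ¬ A a c → ¬ A a d → ¬ A a e → ¬ A b d →
    ¬ A b e → ¬ A c e → False
  col : ∀ u, c u 0 ∨ c u 1 ∨ c u 2
  sep : ∀ u v k, A u v → c u k → c v k → False
  top : ∀ i, i < 3 → c i i
  edge : ∀ p ∈ F, A p.1 p.2
  tri : tf = true → ∀ a b c, A a b → A b c → A a c → False

/-- index of the variable saying that `i` and `j` are adjacent -/
def vE (i j : ℕ) : ℕ :=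
  match Nat.blt i j with
  | true => Nat.add (Nat.mul 32 i) j
  | false => Nat.add (Nat.mul 32 j) i

/-- index of the variable saying that `i` has first colour `k` -/
def vC (i k : ℕ) : ℕ := Nat.add 1024 (Nat.add (Nat.mul 4 i) k)

variable {B : List ℕ} {F : List (ℕ × ℕ)} {tf : Bool} (M : Model B F tf)

def val (v : ℕ) : Prop :=
  if v < 1024 then M.A (v / 32) (v % 32) else M.c ((v - 1024) / 4) ((v - 1024) % 4)

theorem val_E {i j : ℕ} (hi : i < 32) (hj : j < 32) : val M (vE i j) ↔ M.A i j := by
  have key : ∀ i j : ℕ, i < 32 → j < 32 → (val M (32 * i + j) ↔ M.A i j) := by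
    intro i j hi hj
    unfold val
    rw [if_pos (by omega), show (32 * i + j) / 32 = i by omega,
      show (32 * i + j) % 32 = j by omega]
  unfold vE
  cases Nat.blt i j with
  | true => exact key i j hi hj
  | false => exact (key j i hj hi).trans ⟨M.symm _ _, M.symm _ _⟩

theorem val_C {i k : ℕ} (hk : k < 4) : val M (vC i k) ↔ M.c i k := by
  unfold val vC
  change (if 1024 + (4 * i + k) < 1024 then _ else _) ↔ _
  rw [if_neg (by omega)]
  change M.c ((1024 + (4 * i + k) - 1024) / 4) ((1024 + (4 * i + k) - 1024) % 4) ↔ _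
  rw [show (1024 + (4 * i + k) - 1024) / 4 = i by omega,
      show (1024 + (4 * i + k) - 1024) % 4 = k by omega]

theorem testBit_mask {v : ℕ} : ∀ {l : List ℕ}, v ∈ l → (mask l).testBit v = true := by
  intro l
  induction l with
  | nil => intro h; simp at h
  | cons w l ih =>
    intro h
    change (Nat.lor (Nat.shiftLeft 1 w) (mask l)).testBit v = true
    change ((Nat.shiftLeft 1 w) ||| (mask l)).testBit v = true
    rw [Nat.testBit_lor, Bool.or_eq_true]
    rcases List.mem_cons.1 h with h | h
    · left; rw [testBit_shl1, h]; simp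
    · right; exact ih h

/-- a clause given by its two lists of variables is valid when the failure of all its positive
literals and the truth of all its negative ones is contradictory -/
theorem valid_mask {ps ns : List ℕ} (h : (∀ v ∈ ps, ¬ val M v) → (∀ v ∈ ns, val M v) → False) :
    Valid (val M) (mask ps, mask ns) := by
  by_contra hcon
  refine h ?_ ?_
  · intro v hv hval
    exact hcon ⟨v, Or.inl ⟨testBit_mask hv, hval⟩⟩
  · intro v hv
    by_contra hval
    exact hcon ⟨v, Or.inr ⟨testBit_mask hv, hval⟩⟩

def memF : List (ℕ × ℕ) → ℕ → ℕ → Bool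
  | [], _, _ => false
  | p :: ps, i, j =>
    match Nat.beq p.1 i, Nat.beq p.2 j with
    | true, true => true
    | _, _ => memF ps i j

theorem memF_sound (i j : ℕ) : ∀ l : List (ℕ × ℕ), memF l i j = true → (i, j) ∈ l := by
  intro l
  induction l with
  | nil => intro h; simp [memF] at h
  | cons p ps ih =>
    intro h
    rw [memF] at h
    cases h1 : Nat.beq p.1 i with
    | false =>
      simp only [h1] at h
      exact List.mem_cons_of_mem _ (ih h)
    | true =>
      cases h2 : Nat.beq p.2 j with
      | false =>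
        simp only [h1, h2] at h
        exact List.mem_cons_of_mem _ (ih h)
      | true =>
        have e1 := Nat.eq_of_beq_eq_true h1
        have e2 := Nat.eq_of_beq_eq_true h2
        have : p = (i, j) := Prod.ext e1 e2
        rw [this]
        exact List.mem_cons_self

def guard (b : Bool) (c : ℕ × ℕ) : ℕ × ℕ :=
  match b with
  | true => c
  | false => (1, 1)

theorem guard_valid {val : ℕ → Prop} {b : Bool} {c : ℕ × ℕ} (h : b = true → Valid val c) :
    Valid val (guard b c) := by
  cases b with
  | true => exact h rfl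
  | false => exact valid_taut val

def lt32 (i : ℕ) : Bool := Nat.blt i 32

theorem lt32_iff {i : ℕ} (h : lt32 i = true) : i < 32 := by
  rwa [lt32, Nat.blt_eq] at h

/-- the variable of a possible edge, or nothing when the second colours agree -/
def gE (B : List ℕ) (i j : ℕ) (l : List ℕ) : List ℕ :=
  match Nat.beq (B.getD i 0) (B.getD j 0) with
  | true => l
  | false => vE i j :: l

theorem gE_neg {i j : ℕ} {l : List ℕ} (hi : i < 32) (hj : j < 32)
    (h : ∀ v ∈ gE B i j l, ¬ val M v) : ¬ M.A i j ∧ ∀ v ∈ l, ¬ val M v := by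
  unfold gE at h
  cases hb : Nat.beq (B.getD i 0) (B.getD j 0) with
  | true =>
    simp only [hb] at h
    exact ⟨M.same i j (Nat.eq_of_beq_eq_true hb), h⟩
  | false =>
    simp only [hb] at h
    exact ⟨fun hA => h (vE i j) List.mem_cons_self ((val_E M hi hj).2 hA),
      fun v hv => h v (List.mem_cons_of_mem _ hv)⟩

inductive Ax where
  | col (u : ℕ)
  | sep (u v k : ℕ)
  | edge (u v : ℕ)
  | top (i : ℕ)
  | P (a b c d e : ℕ)
  | tri (a b c : ℕ)

def axM (B : List ℕ) (F : List (ℕ × ℕ)) (tf : Bool) : Ax → ℕ × ℕ
  | .col u => (mask [vC u 0, vC u 1, vC u 2], mask [])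
  | .sep u v k => guard (Nat.blt k 3 && (lt32 u && lt32 v))
      (mask [], mask [vE u v, vC u k, vC v k])
  | .edge u v => guard (memF F u v && (lt32 u && lt32 v)) (mask [vE u v], mask [])
  | .top i => guard (Nat.blt i 3) (mask [vC i i], mask [])
  | .P a b c d e => guard (lt32 a && (lt32 b && (lt32 c && (lt32 d && lt32 e))))
      (mask (gE B a c (gE B a d (gE B a e (gE B b d (gE B b e (gE B c e [])))))),
        mask [vE a b, vE b c, vE c d, vE d e])
  | .tri a b c => guard (tf && (lt32 a && (lt32 b && lt32 c)))
      (mask [], mask [vE a b, vE b c, vE a c])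

theorem ax_valid (a : Ax) : Valid (val M) (axM B F tf a) := by
  cases a with
  | col u =>
    apply valid_mask
    intro hp _
    rcases M.col u with h | h | h
    · exact hp _ (by simp) ((val_C M (by norm_num)).2 h)
    · exact hp _ (by simp) ((val_C M (by norm_num)).2 h)
    · exact hp _ (by simp) ((val_C M (by norm_num)).2 h)
  | sep u v k =>
    apply guard_valid
    intro h
    simp only [Bool.and_eq_true, Nat.blt_eq] at h
    obtain ⟨hk, hu, hv⟩ := h
    apply valid_mask
    intro _ hn
    exact M.sep u v k ((val_E M (lt32_iff hu) (lt32_iff hv)).1 (hn _ (by simp)))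
      ((val_C M (by omega)).1 (hn _ (by simp))) ((val_C M (by omega)).1 (hn _ (by simp)))
  | edge u v =>
    apply guard_valid
    intro h
    simp only [Bool.and_eq_true] at h
    obtain ⟨hk, hu, hv⟩ := h
    apply valid_mask
    intro hp _
    exact hp _ List.mem_cons_self
      ((val_E M (lt32_iff hu) (lt32_iff hv)).2 (M.edge _ (memF_sound u v F hk)))
  | top i =>
    apply guard_valid
    intro h
    rw [Nat.blt_eq] at h
    apply valid_mask
    intro hp _
    exact hp _ List.mem_cons_self ((val_C M (by omega)).2 (M.top i h))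
  | P a b c d e =>
    apply guard_valid
    intro h
    simp only [Bool.and_eq_true] at h
    obtain ⟨ha, hb, hc, hd, he⟩ := h
    have ha := lt32_iff ha
    have hb := lt32_iff hb
    have hc := lt32_iff hc
    have hd := lt32_iff hd
    have he := lt32_iff he
    apply valid_mask
    intro hp hn
    obtain ⟨h1, hp⟩ := gE_neg M ha hc hp
    obtain ⟨h2, hp⟩ := gE_neg M ha hd hp
    obtain ⟨h3, hp⟩ := gE_neg M ha he hp
    obtain ⟨h4, hp⟩ := gE_neg M hb hd hp
    obtain ⟨h5, hp⟩ := gE_neg M hb he hp
    obtain ⟨h6, hp⟩ := gE_neg M hc he hp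
    exact M.p5 a b c d e ((val_E M ha hb).1 (hn _ (by simp)))
      ((val_E M hb hc).1 (hn _ (by simp))) ((val_E M hc hd).1 (hn _ (by simp)))
      ((val_E M hd he).1 (hn _ (by simp))) h1 h2 h3 h4 h5 h6
  | tri a b c =>
    apply guard_valid
    intro h
    simp only [Bool.and_eq_true] at h
    obtain ⟨ht, ha, hb, hc⟩ := h
    have ha := lt32_iff ha
    have hb := lt32_iff hb
    have hc := lt32_iff hc
    apply valid_mask
    intro _ hn
    exact M.tri ht a b c ((val_E M ha hb).1 (hn _ (by simp)))
      ((val_E M hb hc).1 (hn _ (by simp))) ((val_E M ha hc).1 (hn _ (by simp)))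

/-- store the axiom clauses in the tree -/
def build (B : List ℕ) (F : List (ℕ × ℕ)) (tf : Bool) : Tr → ℕ → List Ax → Tr
  | t, _, [] => t
  | t, k, a :: l => build B F tf (t.ins k (axM B F tf a).1 (axM B F tf a).2) (Nat.succ k) l

theorem build_valid : ∀ (l : List Ax) (t : Tr) (k : ℕ), (∀ i, Valid (val M) (t.get i)) →
    ∀ i, Valid (val M) ((build B F tf t k l).get i) := by
  intro l
  induction l with
  | nil => intro t k h; exact h
  | cons a l ih =>
    intro t k h
    rw [build]
    exact ih _ _ (Tr.get_ins_valid _ _ _ (ax_valid M a) t k h)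

def check (B : List ℕ) (F : List (ℕ × ℕ)) (tf : Bool) (ax : List Ax) (n : ℕ)
    (st : List (List ℕ × List ℕ × List ℕ)) : Bool :=
  run (build B F tf .nil 0 ax) n st

include M in
theorem check_sound (ax : List Ax) (n : ℕ) (st : List (List ℕ × List ℕ × List ℕ))
    (h : check B F tf ax n st = true) : False := by
  refine run_sound (val M) st _ n ?_ h
  apply build_valid
  intro i
  exact valid_taut _

end Pool.Agent.TH854.P5
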